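import Pool.Agent.Q170.GB.Main

/-!
# When is `ΓBV` contained in `ΛBV_c`?

`recSum Γ n = 1/γ_1 + … + 1/γ_n` and `recSum Λ n = 1/λ_1 + … + 1/λ_n`.  Every function of bounded
`Γ`-variation on `[a, b]` is continuous in `Λ`-variation if and only if

* `recSum Λ n = O(recSum Γ n)`, and
* for every `ε > 0`, the numbers `recSum Γ (2 n) / recSum Γ n` stay below a number smaller than
  two for all large `n` with `recSum Λ n ≥ ε recSum Γ n`.
-/

namespace Pool.Agent.Results.MP_b91a69_an.InclusionCriterion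

open Q170.GB

theorem result (a b : ℝ) (hab : a < b) (Γ Λ : ℕ → ℝ) (hΓ : IsLambdaSeq Γ) (hΛ : IsLambdaSeq Λ) :
    (∀ f : ℝ → ℝ, LBV a b Γ f → LBVc a b Λ f) ↔
      (∃ C : ℝ, ∀ n, recSum Λ n ≤ C * recSum Γ n) ∧
      ∀ ε > 0, ∃ δ > 0, ∃ N, ∀ n ≥ N, ε * recSum Γ n ≤ recSum Λ n →
        recSum Γ (2 * n) ≤ (2 - δ) * recSum Γ n :=
  criterion a b hab Γ Λ hΓ hΛ

end Pool.Agent.Results.MP_b91a69_an.InclusionCriterion
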